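import Pool.Agent.W172.MK.Stm

/-!
Project MK (MP_65c995_pr), part E6e: one step of the process, even times.
-/

set_option autoImplicit false

open MeasureTheory ProbabilityTheory Filter Topology
open Pool.Agent.W172.MK

namespace Pool.Agent.W32.MK.StepE

theorem stepe (hX : P_XM) (hI : P_INDEP) (hB : P_BR) : P_STEPE := by
  intro S _ μ _ p F hK hR a G hG f hf hb
  have hFm := hR.meas
  obtain ⟨_, _, hbase, _⟩ := hX S inferInstance F hFm
  have hG' : MeasurableSet[base S a] G := hbase a G hG
  have e1 : ∀ ω : Om S, XX F (2 * a + 1) ω = F ((ω a).1, (ω (a + 1)).1) (ω (a + 1)).2 := by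
    intro ω
    have h1 : (2 * a + 1) % 2 ≠ 0 := by omega
    have h2 : (2 * a + 1) / 2 = a := by omega
    simp only [XX, if_neg h1, h2]
  have e2 : ∀ ω : Om S, XX F (2 * a) ω = (ω a).1 := by
    intro ω
    have h1 : (2 * a) % 2 = 0 := by omega
    have h2 : (2 * a) / 2 = a := by omega
    simp only [XX, if_pos h1, h2]
  obtain ⟨C, hC⟩ := hb
  have hφm : Measurable (Function.uncurry (fun (y : S) (w : S × unitInterval) =>
      f (F (y, w.1) w.2))) := by
    refine hf.comp ?_
    have : Measurable (fun q : S × (S × unitInterval) => (((q.1, q.2.1), q.2.2) : (S × S) × unitInterval)) := by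
      fun_prop
    exact hFm.comp this
  have hφ := hI S inferInstance μ inferInstance a G hG'
    (fun (y : S) (w : S × unitInterval) => f (F (y, w.1) w.2)) hφm ⟨C, fun y w => hC _⟩
  have hin : ∀ x : S, ∫ w, f (F (x, w.1) w.2) ∂(μ.prod (volume : Measure unitInterval))
      = Pf μ p f x := by
    intro x
    have hh : Measurable (Function.uncurry (fun (_ : S) (z : S) => f z)) :=
      hf.comp measurable_snd
    have h := hB S inferInstance μ inferInstance p F hK hR x (fun _ z => f z) hh
      ⟨C, fun _ z => hC z⟩
    rw [h]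
    unfold Pf
    refine integral_congr_ae (Filter.Eventually.of_forall fun z => ?_)
    simp only
    rw [integral_mul_const, hK.row z, one_mul]
  simp only [e1, e2]
  rw [hφ]
  simp only [hin]

end Pool.Agent.W32.MK.StepE
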